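import Pool.Agent.Run7.h821.GfE
import Pool.Agent.N999.SX.FG

/-!
# Canonical dimension, abundance and minimal models for the images of arbitrary fibrations

Let `V` be a smooth projective variety over `ℂ` and `V ⇢ X` a dominant rational map with fibres of
dimension `f + 1`, any `f`; the fibration is arbitrary, in particular it need not be birational to a
product, and its variation may be maximal. Suppose that `X` is given as the image of `V` in a product
of varieties `X 0 × ... × X (k - 1)`, and let `𝓛 i` be linear systems on the `X i` (linear systems
of line bundles `L i`; in this file `H i` is the set of the quotients of their sections by a fixed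
one). Suppose that over the generic point of `X`

* `f_* ω_V` is generated by global sections of `K_V - ∑ L i`.

Let `V ⇢ W` be a dominant rational map of finite degree. It need not be related to the fibration,
and its ramification is arbitrary. Let `W_i` be the image of `V` in `W × X 0 × ... × X (i - 1)`, let
`W' = W_k` be the image of `V` in `W × X`, and let `W'_X` be the generic fibre of `W' ⇢ X`, a variety
of dimension `f + 1` over the function field of `X`, which is dominated by the generic fibre of `V`.
A point of `W_i` has finitely many points of `X i` below it, i.e. such that `V` has a point with these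
images in `W_i` and `X i`. There are two conditions:

* (One) The points of `X i` below a general point of `W_i` impose independent conditions on `𝓛 i`.
* (Two) The points of `X i` below two general points of `W_i` impose independent conditions on `𝓛 i`.

Here a general point of `W_i` is an embedding of its function field into any algebraically closed
field, so the two points in (Two) may be related in any way. Let `d i` be the number of points below
one point. Criteria: (One) holds if `𝓛 i` separates `d i` points, and (Two) holds if `𝓛 i` separates
`2 d i` points. For `𝓛 i` the forms of degree `M i` in a projective space which contains `X i`, let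
`ρ i` be the regularity index of the `d i` points, i.e. the functions on them are polynomials of
degree at most `ρ i` (always `ρ i ≤ d i - 1`, and for instance `ρ i = n (e - 1)`, `d i = e ^ n` if
they are a complete intersection of hypersurfaces of degree `e` in an affine space of dimension `n`).
Then (One) holds if `M i ≥ ρ i` and (Two) holds if `M i ≥ 2 ρ i + 1`.

Let `c(Z)` be the dimension of the image of the canonical map of `Z`, which is defined if
`p_g(Z) ≠ 0`. Then (One) implies

* `p_g(W) ≠ 0` if and only if `p_g(W'_X) ≠ 0`,

and (Two) implies

* `c(W) = dim X + c(W'_X)` if `p_g(W) ≠ 0` (exact formula), so `κ(W) ≥ dim X`;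
* `κ(W) ≤ dim X + κ(W'_X)`;
* `W` is of general type if the canonical map of `W'_X` is generically finite;
* if `V ⇢ X` has irreducible fibres, and if the numerical dimension of the geometric generic fibre
  of `W' ⇢ X` is at most `c(W'_X)`, then all projective varieties with canonical singularities which
  are birational to `W` have `κ = ν = dim X + c(W'_X)`.

For the minimal model conjecture: `W` is birational to a variety with terminal singularities and nef
canonical divisor in each of the following cases (the last steps are theorems of the literature and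
not part of the Lean proof): the fibres have dimension at most `3` and `p_g(W) ≠ 0`, or more
generally `c(W'_X) ≥ dim W'_X - 3`, since then `κ(W) ≥ dim W - 3` and the general fibres of the Iitaka
fibration have good minimal models (Lai); the numerical dimension of the fibre is `c(W'_X)`, since
`κ = ν` (Gongyo-Lehmann); the canonical map of `W'_X` is generically finite (general type,
Birkar-Cascini-Hacon-McKernan).

Proof. The pull-back of a canonical form of `W'_X` to the generic fibre of `V` is a combination of
the given sections `ω j` with coefficients in `ℂ(X)`; so the canonical forms of `W'_X` are combinations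
of the traces of the `ω j`. The traces on `W` of the forms `s 0 ... s (k - 1) ω j`, `s i ∈ 𝓛 i`, are
canonical forms of `W`. If they vanish, then the points in a fibre of `V ⇢ W` satisfy a relation, the
coordinates in the `X i` are separated one after the other by (One), and there remains the trace to
`W'`; so some of them is not zero if `p_g(W'_X) ≠ 0`. If two generic points of `W` have the same image
under the map given by these forms then the points of the two fibres of `V ⇢ W` satisfy a relation,
and by (Two) there remains a relation between the traces to `W'` at points with the same image in `X`: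
so the coordinates of `X`, and the ratios of the traces to `W'` of the `ω j`, are algebraic over the
field of the canonical map of `W`. This is the method of `MP_fa3f7f_ag.ProductsWithArbitraryFactor`
(helper562, in this run) for products `X 0 × ... × X (k - 1) × Y`, whose hypothesis is the second
criterion for the canonical systems, and where a Künneth theorem shows that `f_* ω_V` is generated.
The criterion for (Two) by the regularity index uses that a point which is not below `β` is not a zero
of some equation of degree `ρ + 1` of the points below `β`. The numerical dimension: easy addition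
`ν(W) ≤ ν(W') ≤ dim X + ν(geometric generic fibre)`.

The function-field language of the starting repository is used: `K`, `L` and `F i` are the function
fields of `V`, `W` and `X i`.
-/

set_option autoImplicit false
set_option linter.overlappingInstances false
set_option maxHeartbeats 4000000
set_option synthInstance.maxHeartbeats 400000

open FF Module IntermediateField Pool.Agent Pool.Agent.W602.GT Pool.Agent.Y172 Pool.Agent.Y191

namespace Pool.Agent.Results.MP_fa3f7f_ag.ImagesOfFibrations

section

variable {K : Type} [Field K] [Algebra ℂ K] {L : Type} [Field L] [Algebra ℂ L] [Algebra L K]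
  [IsScalarTower ℂ L K]

/-- Let `K` be the function field of a variety `V`, and let `M` and `E` be the function fields of
varieties `W_i` and `X_i` which are dominated by `V`. The points of `X_i` below the (generic) point
`α` of `W_i`, with coordinates in the field `Ω`: there is a point `τ` of `V` with the image `α` in
`W_i` and the image `σ` in `X_i`. -/
def Below (M : IntermediateField L K) (E : IntermediateField ℂ K) {Ω : Type} [Field Ω]
    [Algebra ℂ Ω] (α : M →ₐ[ℂ] Ω) : Set (E →ₐ[ℂ] Ω) :=
  {σ | ∃ τ : K →ₐ[ℂ] Ω, (∀ z : M, τ z = α z) ∧ ∀ z : E, τ z = σ z}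

/-- (One) The points of `X_i` below a point of `W_i` impose independent conditions on the linear
system `H`: a relation `∑ c σ * σ f = 0` for all `f ∈ H` is trivial. -/
def OneFibre (M : IntermediateField L K) (E : IntermediateField ℂ K) (H : Set E) : Prop :=
  ∀ (Ω : Type) [Field Ω] [Algebra ℂ Ω] [IsAlgClosed Ω] (α : M →ₐ[ℂ] Ω)
    (A : Finset (E →ₐ[ℂ] Ω)), (∀ σ ∈ A, σ ∈ Below M E α) →
    ∀ c : (E →ₐ[ℂ] Ω) → Ω, (∀ f ∈ H, ∑ σ ∈ A, c σ * σ f = 0) → ∀ σ ∈ A, c σ = 0

/-- (Two) The points of `X_i` below two points of `W_i` impose independent conditions on the linear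
system `H`. -/
def TwoFibres (M : IntermediateField L K) (E : IntermediateField ℂ K) (H : Set E) : Prop :=
  ∀ (Ω : Type) [Field Ω] [Algebra ℂ Ω] [IsAlgClosed Ω] (α β : M →ₐ[ℂ] Ω)
    (A : Finset (E →ₐ[ℂ] Ω)), (∀ σ ∈ A, σ ∈ Below M E α ∨ σ ∈ Below M E β) →
    ∀ c : (E →ₐ[ℂ] Ω) → Ω, (∀ f ∈ H, ∑ σ ∈ A, c σ * σ f = 0) → ∀ σ ∈ A, c σ = 0

/-- The linear system `H` on the variety with the function field `E` separates `r` points: at most
`r` different points impose independent conditions. -/
def SeparatesPoints (E : IntermediateField ℂ K) (H : Set E) (r : ℕ) : Prop :=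
  ∀ (Ω : Type) [Field Ω] [Algebra ℂ Ω] [IsAlgClosed Ω] (A : Finset (E →ₐ[ℂ] Ω)), A.card ≤ r →
    ∀ c : (E →ₐ[ℂ] Ω) → Ω, (∀ f ∈ H, ∑ σ ∈ A, c σ * σ f = 0) → ∀ σ ∈ A, c σ = 0

/-- The functions `t j` generate the function field `E`, and the regularity index of the points below
a point of the variety with the function field `M` is at most `ρ`: the functions on the
compositum are polynomials of degree at most `ρ` in the `t j`, with coefficients in `M`. -/
def RegularityLe (M : IntermediateField L K) (E : IntermediateField ℂ K) {m : ℕ} (t : Fin m → E)
    (ρ : ℕ) : Prop :=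
  IntermediateField.adjoin ℂ (Set.range t) = ⊤ ∧
    ∀ z ∈ IntermediateField.adjoin M (E : Set K), ∃ p : MvPolynomial (Fin m) M,
      p.totalDegree ≤ ρ ∧ MvPolynomial.aeval (fun j => (t j : K)) p = z

/-- The number of the points of `X_i` below a point of `W_i`: the degree over `M` of the compositum. -/
noncomputable def deg (M : IntermediateField L K) (E : IntermediateField ℂ K) : ℕ :=
  finrank M (IntermediateField.adjoin M (E : Set K))

/-- The linear system `A` contains all forms of degree `D` in the coordinates `1, t`. -/
def AllForms {E : IntermediateField ℂ K} {m : ℕ} (t : Fin m → E) (D : ℕ) (A : Set E) : Prop :=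
  ∀ a : Fin m → ℕ, ∑ j, a j ≤ D → ∏ j, t j ^ a j ∈ A

/-- The criteria for (One). -/
def CriterionOne (M : IntermediateField L K) (E : IntermediateField ℂ K) (A : Set E) : Prop :=
  SeparatesPoints E A (deg M E) ∨
    ∃ (m : ℕ) (t : Fin m → E) (ρ : ℕ), RegularityLe M E t ρ ∧ AllForms t ρ A

/-- The criteria for (Two). -/
def CriterionTwo (M : IntermediateField L K) (E : IntermediateField ℂ K) (A : Set E) : Prop :=
  SeparatesPoints E A (2 * deg M E) ∨
    ∃ (m : ℕ) (t : Fin m → E) (ρ : ℕ), RegularityLe M E t ρ ∧ AllForms t (2 * ρ + 1) A

end

section

variable {K : Type} [Field K] [Algebra ℂ K] {k : ℕ}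

/-- The form `ω` is a section of `K_V - ∑ L i`: its products with sections of the linear systems are
regular at all prime divisors. -/
def IsTwisted {F : Fin k → IntermediateField ℂ K} (H : ∀ i, Set (F i)) (N : ℕ)
    (ω : (Fin N → Derivation ℂ K K) → K) : Prop :=
  IsPluri 1 ω ∧ ∀ f : ∀ i, F i, (∀ i, f i ∈ H i) → ∀ P : Place ℂ K, Divisorial N P →
    RegAt P (fun D => (∏ i, (f i : K)) * ω D)

/-- The function field of the image `X` of `V` in the product of the `X i`. -/
noncomputable def Base (F : Fin k → IntermediateField ℂ K) : IntermediateField ℂ K := ⨆ i, F i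

/-- The direct image of `ω_V` on `X` is generated by sections of `K_V - ∑ L i` over the generic point
of `X`: the canonical forms which are regular at all prime divisors which dominate `X` (i.e. at the
divisorial places which are trivial on the function field of `X`) are combinations of sections of
`K_V - ∑ L i` with coefficients in the function field of `X`. -/
def Generated {F : Fin k → IntermediateField ℂ K} (H : ∀ i, Set (F i)) (N : ℕ) : Prop :=
  ∀ ω : (Fin N → Derivation ℂ K K) → K, IsPluri 1 ω →
    (∀ P : Place ℂ K, Divisorial N P → (∀ f : Base F, P.ord (f : K) = 0) → RegAt P ω) →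
    ∃ (n : ℕ) (c : Fin n → Base F) (θ : Fin n → (Fin N → Derivation ℂ K K) → K),
      (∀ j, IsTwisted H N (θ j)) ∧ ∀ D, ω D = ∑ j, (c j : K) * θ j D

/-- The function field of the image `W_i` of `V` in the product of `W` and `X 0, ..., X (i - 1)`. -/
noncomputable def Img (F : Fin k → IntermediateField ℂ K) (L : Type) [Field L] [Algebra L K]
    (i : ℕ) : IntermediateField L K :=
  IntermediateField.adjoin L {z | ∃ l : Fin k, l.val < i ∧ z ∈ F l}

/-- The image of the canonical map of the varieties with function field `L`, of dimension `N`, has
dimension at least `d` (in particular `p_g ≠ 0`; for `d = 0` this is the whole condition): there are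
canonical forms, regular at all prime divisors, whose ratios contain `d` algebraically independent
functions. -/
def CanonicalDimGe (L : Type) [Field L] [Algebra ℂ L] (N d : ℕ) : Prop :=
  ∃ ω : Fin (d + 1) → (Fin N → Derivation ℂ L L) → L,
    (∀ j, IsPluri 1 (ω j) ∧ ∀ P : Place ℂ L, Divisorial N P → RegAt P (ω j)) ∧
    ∃ D, ω 0 D ≠ 0 ∧ AlgebraicIndependent ℂ (fun i : Fin d => ω i.succ D / ω 0 D)

/-- The image of the `w`-canonical map of the generic fibre `W'_X` of `W' ⇢ X` has dimension at least
`s` (for `s = 0`: the `w`-th plurigenus is not zero). The `w`-canonical forms of `W'_X` are the ones of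
`W'` which are regular at all prime divisors which dominate `X`, i.e. at the divisorial places which
are trivial on the function field of `X`. -/
def FibreDimGe (w : ℕ) (F : Fin k → IntermediateField ℂ K) (L : Type) [Field L]
    [Algebra ℂ L] [Algebra L K] [IsScalarTower ℂ L K] (N s : ℕ) : Prop :=
  ∃ ω : Fin (s + 1) → (Fin N → Derivation ℂ (Img F L k) (Img F L k)) → Img F L k,
    (∀ j, IsPluri w (ω j) ∧ ∀ P : Place ℂ (Img F L k), Divisorial N P →
      (∀ f : Img F L k, (f : K) ∈ Base F → P.ord f = 0) → RegAt P (ω j)) ∧
    ∃ D, ω 0 D ≠ 0 ∧
      AlgebraicIndependent (Base F) (fun i : Fin s => ((ω i.succ D / ω 0 D : Img F L k) : K))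

/-- The algebraic closure of the function field of `X`. -/
noncomputable def Closure (F : Fin k → IntermediateField ℂ K) :
    IntermediateField (Base F) (AlgebraicClosure K) :=
  algebraicClosure (Base F) (AlgebraicClosure K)

/-- The function field of the geometric generic fibre of `W' ⇢ X`: the field generated by the function
field of `W'` over the algebraic closure of the one of `X`. -/
noncomputable def GeometricFibre (F : Fin k → IntermediateField ℂ K) (L : Type) [Field L]
    [Algebra L K] : IntermediateField (Closure F) (AlgebraicClosure K) :=
  IntermediateField.adjoin (Closure F) (algebraMap K (AlgebraicClosure K) '' (Img F L k : Set K))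

/-- The numerical dimension of the geometric generic fibre of `W' ⇢ X`, of dimension `r`, is at most
`s`. (`NumLe`, from the starting repository: `h⁰(m K + A) ≤ C m ^ s` for every divisor `A`.) -/
def FibreNumLe (F : Fin k → IntermediateField ℂ K) (L : Type) [Field L]
    [Algebra L K] (r s : ℕ) : Prop :=
  Pool.Agent.W619.TW.NumLe (Closure F) (GeometricFibre F L) r (fun _ => False) s

end

/-- `κ(X) = ν(X) = d` for all projective varieties `X` of dimension `n` with canonical singularities
and the function field `L` (with any effective integral divisor `A` in the definition of `ν`). -/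
def Dimensions (L : Type) [Field L] [Algebra ℂ L] (n d : ℕ) : Prop :=
  ∀ (N : ℕ) (y : Fin (N + 1) → L), NormalModel y → Canonical y n →
    kodairaDim y n 0 = (d : WithBot ℕ) ∧
      ∀ A, Effective y A → Integral y A → numericalDim y n 0 A = (d : EReal)

section

variable {K : Type} [Field K] [Algebra ℂ K] {k : ℕ}

/-- `c(W) ≥ dim X + s` if and only if `c(W'_X) ≥ s` (here `dim X = b`, `dim W'_X = f + 1`). -/
def CanonicalFormula (F : Fin k → IntermediateField ℂ K) (L : Type) [Field L]
    [Algebra ℂ L] [Algebra L K] [IsScalarTower ℂ L K] (b f : ℕ) : Prop :=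
  ∀ s : ℕ, CanonicalDimGe L (b + (f + 1)) (b + s) ↔ FibreDimGe 1 F L (b + (f + 1)) s

/-- If `p_g(W) ≠ 0` then `c(W) ≥ dim X` and `κ(W) ≥ dim X`; if `κ(W) ≥ dim X + s` then some
plurigenera of `W'_X` show `κ(W'_X) ≥ s`; if `c(W'_X) = dim W'_X` then `W` is of general type. -/
def KodairaBounds (F : Fin k → IntermediateField ℂ K) (L : Type) [Field L]
    [Algebra ℂ L] [Algebra L K] [IsScalarTower ℂ L K] (b f : ℕ) : Prop :=
  (CanonicalDimGe L (b + (f + 1)) 0 → CanonicalDimGe L (b + (f + 1)) b ∧
    KodGe ℂ L (b + (f + 1)) (fun _ => False) b) ∧
  (∀ s : ℕ, KodGe ℂ L (b + (f + 1)) (fun _ => False) (b + s) →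
    ∃ w, 0 < w ∧ FibreDimGe w F L (b + (f + 1)) s) ∧
  (FibreDimGe 1 F L (b + (f + 1)) (f + 1) → GeneralType ℂ L (b + (f + 1)))

/-- If the function field of `X` is algebraically closed in the one of `V`, `c(W'_X) ≥ s`, and the
numerical dimension of the geometric generic fibre of `W' ⇢ X` is at most `s`, then
`κ = ν = dim X + s` for all projective varieties with canonical singularities birational to `W`. -/
def NumericalFormula (F : Fin k → IntermediateField ℂ K) (L : Type) [Field L]
    [Algebra ℂ L] [Algebra L K] [IsScalarTower ℂ L K] (b f : ℕ) : Prop :=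
  (∀ z : K, IsAlgebraic (Base F) z → z ∈ Base F) → ∀ s : ℕ,
    FibreDimGe 1 F L (b + (f + 1)) s → FibreNumLe F L (f + 1) s →
    Dimensions L (b + (f + 1)) (b + s)

end

section

variable {K : Type} [Field K] [Algebra ℂ K] {k : ℕ} {L : Type} [Field L] [Algebra ℂ L]
  [Algebra L K] [IsScalarTower ℂ L K]

omit [Algebra ℂ L] [IsScalarTower ℂ L K] in
theorem img_eq (F : Fin k → IntermediateField ℂ K) (i : ℕ) :
    N145.PC.MF F L (N145.PC.Js k i) = Img F L i := by
  unfold N145.PC.MF N145.PC.MJ Img
  congr 1
  ext z
  simp only [Set.mem_iUnion, N145.PC.mem_Js, Set.mem_range, exists_prop]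
  constructor
  · rintro ⟨l, hl, z, rfl⟩
    exact ⟨l, hl, z.2⟩
  · rintro ⟨l, hl, hz⟩
    exact ⟨l, hl, ⟨z, hz⟩, rfl⟩

end

/-- **The images of a fibration.** Let `K` be the function field of a variety `V` of dimension
`b + (f + 1)`, let `F i`, `i < k`, be the function fields of varieties `X i` which are dominated by
`V`, and let `b` be the dimension of the image `X` of `V` in the product of the `X i`. Let `H i` be
linear systems on the `X i` such that the direct image of `ω_V` is generated over the generic point
of `X` by sections of `K_V - ∑ L i`. Let `L ⊆ K` be the function field of a variety `W` such that the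
extension is finite. Let `W'` be the image of `V` in `W × X`, and `W'_X` its generic fibre over `X`.
* (Criteria for (One) and (Two)) see the comments above.
* If (One) holds for all `i` then `p_g(W) ≠ 0` if and only if `p_g(W'_X) ≠ 0`.
* If (Two) holds for all `i` then `c(W) ≥ dim X + s` if and only if `c(W'_X) ≥ s`; if `p_g(W) ≠ 0`
  then `c(W) ≥ dim X` and `κ(W) ≥ dim X`; if `κ(W) ≥ dim X + s` then `κ(W'_X) ≥ s`; if
  `c(W'_X) = dim W'_X` then `W` is of general type; and if the function field of `X` is algebraically
  closed in `K`, `c(W'_X) ≥ s` and the numerical dimension of the geometric generic fibre of `W' ⇢ X`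
  is at most `s`, then `κ = ν = dim X + s` for all projective varieties with canonical singularities
  which are birational to `W`. -/
theorem result {K : Type} [Field K] [Algebra ℂ K] [Algebra.EssFiniteType ℂ K] {b f k : ℕ}
    (hK : Algebra.trdeg ℂ K = (b + (f + 1) : ℕ)) (F : Fin k → IntermediateField ℂ K)
    (hb : Algebra.trdeg ℂ (Base F) = b) (H : ∀ i, Set (F i)) (hgen : Generated H (b + (f + 1)))
    (L : Type) [Field L] [Algebra ℂ L] [Algebra L K] [IsScalarTower ℂ L K]
    [FiniteDimensional L K] :
    (∀ (M : IntermediateField L K) (E : IntermediateField ℂ K) (A : Set E),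
      (CriterionOne M E A → OneFibre M E A) ∧ (CriterionTwo M E A → TwoFibres M E A)) ∧
    ((∀ i : Fin k, OneFibre (Img F L i) (F i) (H i)) →
      (CanonicalDimGe L (b + (f + 1)) 0 ↔ FibreDimGe 1 F L (b + (f + 1)) 0)) ∧
    ((∀ i : Fin k, TwoFibres (Img F L i) (F i) (H i)) →
      CanonicalFormula F L b f ∧ KodairaBounds F L b f ∧ NumericalFormula F L b f) := by
  classical
  have hess : Algebra.EssFiniteType ℂ K := inferInstance
  have hL : Algebra.trdeg ℂ L = (b + (f + 1) : ℕ) :=
    Pool.Agent.Y184.NT.trdeg_below (K := K) hK
  have hessL : Algebra.EssFiniteType ℂ L := Pool.Agent.TH466.QG.ess_below (K := K)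
  have huniv : N145.PC.MF F L Finset.univ = Img F L k := by
    rw [← Run7.h821.js_univ, img_eq]
  have h2 : ∀ s, CanonicalDimGe L (b + (f + 1)) (b + s) → FibreDimGe 1 F L (b + (f + 1)) s :=
    fun s hs => Run7.h562.MM.to_fibre hK hb hs
  have h3 : CanonicalDimGe L (b + (f + 1)) 0 → FibreDimGe 1 F L (b + (f + 1)) 0 := fun h =>
    Run7.h562.MM.pg_iff_fib hK h
  refine ⟨fun M E A => ⟨?_, ?_⟩, fun h1 => ⟨h3, fun hf => ?_⟩, fun hT => ?_⟩
  · rintro (h | ⟨m, t, ρ, hreg, hmon⟩)
    · exact _root_.Run7.h821.one_of_sep le_rfl h
    · exact _root_.Run7.h821.one_of_reg hreg.2 hmon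
  · rintro (h | ⟨m, t, ρ, hreg, hmon⟩)
    · exact _root_.Run7.h821.two_of_sep le_rfl h
    · exact _root_.Run7.h821.two_of_reg hreg.2 hreg.1 hmon
  · exact _root_.Run7.h821.can_one (L := L) hK (F := F) (B := Base F) rfl hgen
      (fun i => by
        rw [img_eq]
        exact h1 i) (by
        rw [huniv]
        exact hf)
  · have h4 : ∀ s, FibreDimGe 1 F L (b + (f + 1)) s → CanonicalDimGe L (b + (f + 1)) (b + s) :=
      fun s hs => _root_.Run7.h821.can_two (L := L) hK (F := F) (B := Base F) rfl hb hgen
        (fun i => by
          rw [img_eq]
          exact hT i) (by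
          rw [huniv]
          exact hs)
    refine ⟨fun s => ⟨h2 s, h4 s⟩, ⟨fun h => ?_, fun s hs => Run7.h562.MM.kod_fibre hK hb hs,
      fun h => (N145.SX.kodGe_iff hL).1 (N145.SX.kodGe_of_canGe (h4 _ h))⟩,
      fun hcl s hs hnum => ?_⟩
    · have h5 := h4 0 (h3 h)
      rw [add_zero] at h5
      exact ⟨h5, N145.SX.kodGe_of_canGe h5⟩
    · -- the numerical dimension
      have hle : Base F ≤ (Img F L k).restrictScalars ℂ := by
        unfold Base
        refine iSup_le fun i v hv => ?_
        rw [IntermediateField.mem_restrictScalars]
        exact IntermediateField.subset_adjoin _ _ ⟨i, i.2, hv⟩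
      obtain ⟨E', hE'⟩ : ∃ E' : IntermediateField (Base F) K,
        E' = IntermediateField.extendScalars hle := ⟨_, rfl⟩
      have hE'r : E'.restrictScalars ℂ = (Img F L k).restrictScalars ℂ := by
        rw [hE']
        exact IntermediateField.extendScalars_restrictScalars hle
      have hfinE : FiniteDimensional E' K := by
        have h5 : FiniteDimensional (Img F L k) K := inferInstance
        rw [hE']
        exact h5
      have hnumE := _root_.Run7.h821.num_geo (s := s) hK (Base F)
        (Pool.Agent.N999.SX.ess_any (Base F)) hb hcl E' (by
          rw [hE'r]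
          exact hnum)
      rw [hE'r] at hnumE
      have hnumL := _root_.Run7.h821.numLe_down_mid hK (Img F L k) hnumE
      obtain ⟨ω, hω, D, hD0, hDi⟩ := h4 s hs
      have hcan : _root_.Run7.h821.CanonicalImage L (b + (f + 1)) (b + s) := by
        refine ⟨ω, hω, D, fun l => ?_, hDi⟩
        refine Fin.cases hD0 (fun i => ?_) l
        intro h0
        have h6 := hDi.ne_zero i
        rw [h0, zero_div] at h6
        exact h6 rfl
      exact fun _ y hy hcanon => R885.dims_of hL hy hcanon hcan.kod hnumL

end Pool.Agent.Results.MP_fa3f7f_ag.ImagesOfFibrations
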