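import Pool.Agent.Run7.h562.ND.Main

/-!
# Images of products with an arbitrary factor: exact formulas and good minimal models

Let `V = X × Y`, where `X` and `Y` are smooth projective varieties over `ℂ` of dimensions `d` and `n`.
There is no condition on `Y`: it may be uniruled, or of Kodaira dimension `-∞`. Let `V ⇢ W` be a
dominant rational map of finite degree to a variety `W`. It need not be related to the product
structure, and it need not be the quotient by a group. Let `H_0, ..., H_{k-1}` be linear systems on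
`X`, let `W_i` be the image of `V` in `W × ℙ^(m_0) × ... × ℙ^(m_{i-1})`, and let `d_i` be the degree of
`W_{i+1} → W_i`. Suppose that `V ⇢ W_k` is birational (general points of `V` with the same image in
`W` are separated by the systems on `X`), and that `N K_X - ∑ M_i H_i` is effective for some
`N ≥ 1` and `M_i > 2 N (d_i - 1)`. Then

* `K_W` is pseudo-effective if and only if `K_Y` is; `κ(W) = -∞` if and only if `κ(Y) = -∞`;
* `κ(W) ≤ d + κ(Y)` and `ν(W) ≤ d + ν(Y)`;
* if the systems contain `s` algebraically independent functions then `κ(W) ≥ s + κ(Y)` and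
  `ν(W) ≥ s + ν(Y)`;
* so, if the systems separate the general points of `X` generically finitely (`s = d`), then
  `κ(W) = d + κ(Y)` and `ν(W) = d + ν(Y)`, and `κ(W) = ν(W) ≥ 0` if and only if `κ(Y) = ν(Y) ≥ 0`.

For the minimal model conjecture: a variety with pseudo-effective canonical divisor has a good minimal
model if and only if `κ = ν` (Gongyo, Lehmann; Druel, Hacon, Popa). So `W` has a good minimal model if
and only if `Y` has one. If `dim Y ≤ 3`, then `W` (of every dimension) has a good minimal model, or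
`K_W` is not pseudo-effective and `W` has a Mori fibre space (Birkar, Cascini, Hacon, McKernan), so
the conjecture holds for `W`. These last steps are not part of the Lean proof.

Method. Upper bounds: a section of `m K_V + A` on the product is a combination, over the function
field of `X`, of sections of `m K_Y + A'`, with `A'` independent of `m` (a Künneth theorem for adjoint
divisors, `ND.ext`), and the relative count of sections of the start tree (`Y174.count_rel`). Lower
bounds: exterior products `η^s ∧ τ` of a positive multicanonical form on `X` with sections `τ` of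
`m K_Y + A`, multiplied by monomials in the systems, and their norms down to `W`
(`Run7.h72.tower_ind`, the norm principle in towers of helper72).
-/

set_option autoImplicit false
set_option linter.overlappingInstances false
set_option linter.unusedSectionVars false
set_option linter.unusedVariables false

open FF IntermediateField Module

namespace Pool.Agent.Results.MP_fa3f7f_ag.ImagesOfProductsExact

open Pool.Agent.W602.GT (Divisorial RegAt IsPluri)
open Pool.Agent.W619.TW (NumLe NumNeg KodGe)
open Run7.h72 (mlt Lv)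

/-- `ν (K_X) = -∞` for the function field `K` of `X` of dimension `d`: for each divisor `A`, no
large multiple `m K_X + A` has a section (`K_X` is not pseudo-effective). -/
def NuNeg (K : Type) [Field K] [Algebra ℂ K] (d : ℕ) : Prop := NumNeg ℂ K d fun _ => False

/-- `ν (K_X) ≤ h`: for each divisor `A` there is `C` with `h⁰ (m K_X + A) ≤ C m ^ h` for all
`m ≥ 1`. -/
def NuLe (K : Type) [Field K] [Algebra ℂ K] (d h : ℕ) : Prop := NumLe ℂ K d (fun _ => False) h

/-- `κ (X) ≥ a`: there is `m ≥ 1` with `h⁰ (j m K_X) ≥ j ^ a` for all `j ≥ 1`. -/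
def KapGe (K : Type) [Field K] [Algebra ℂ K] (d a : ℕ) : Prop := KodGe ℂ K d (fun _ => False) a

/-- `κ (X) = ν (X) ≥ 0`. -/
def Abundant (K : Type) [Field K] [Algebra ℂ K] (d : ℕ) : Prop := ∃ h, KapGe K d h ∧ NuLe K d h

/-- `N K_X - ∑ M_i H_i` is effective, where `H_i` is the linear system spanned by the functions
`x i b` (with `x i 0 = 1`): there is an `N`-canonical form `η ≠ 0` such that all products
`∏ (x i (f i)) ^ M_i * η` are regular along all prime divisors (on all models). -/
def SysEff {E : Type} [Field E] [Algebra ℂ E] (d N : ℕ) {k : ℕ} {m : Fin k → ℕ}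
    (x : ∀ i, Fin (m i + 1) → E) (M : Fin k → ℕ) : Prop :=
  ∃ η : (Fin d → Derivation ℂ E E) → E, IsPluri N η ∧ (∃ D, η D ≠ 0) ∧
    ∀ f, ∀ P : Place ℂ E, Divisorial d P → RegAt P fun D => mlt x M f * η D

/-- **Images of products.** `L ⊆ K` are the function fields of `W` and `V = X × Y`, and `E`, `F` those
of `X`, `Y`; the field `Lv L x i` is the function field of the image `W_i` of `V` in
`W × ℙ^(m_0) × ... × ℙ^(m_(i-1))`, and the condition `hM` is `M_i > 2 N (deg (W_(i+1) → W_i) - 1)`. -/
theorem result {K L : Type} [Field K] [Field L] [Algebra ℂ K] [Algebra ℂ L] [Algebra L K]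
    [IsScalarTower ℂ L K] [FiniteDimensional L K] [Algebra.EssFiniteType ℂ K]
    {E F : IntermediateField ℂ K} [Algebra.EssFiniteType ℂ E] [Algebra.EssFiniteType ℂ F]
    (hsup : E ⊔ F = ⊤) {d n : ℕ} (hE : Algebra.trdeg ℂ E = d) (hn : Algebra.trdeg ℂ F = n)
    (hK : Algebra.trdeg ℂ K = (d + n : ℕ)) {k : ℕ} {m : Fin k → ℕ}
    (x : ∀ i, Fin (m i + 1) → E) (hx0 : ∀ i, x i 0 = 1)
    (hgen : Lv L (fun i b => (x i b : K)) k = ⊤) {N : ℕ} (hN : 1 ≤ N) (M : Fin k → ℕ)
    (hM : ∀ i : Fin k, 2 * (finrank L (Lv L (fun i b => (x i b : K)) (i + 1)) -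
      finrank L (Lv L (fun i b => (x i b : K)) i)) * N <
        M i * finrank L (Lv L (fun i b => (x i b : K)) i))
    (heff : SysEff d N x M) :
    (NuNeg L (d + n) ↔ NuNeg F n) ∧ (KapGe L (d + n) 0 ↔ KapGe F n 0) ∧
    (∀ h, NuLe F n h → NuLe L (d + n) (d + h)) ∧ (∀ a, KapGe L (d + n) (d + a) → KapGe F n a) ∧
    ∀ (s : ℕ) (q : Fin s → (i : Fin k) × Fin (m i + 1)),
      (AlgebraicIndependent ℂ fun a => x (q a).1 (q a).2) →
      (∀ h, NuLe L (d + n) (s + h) → NuLe F n h) ∧
      (∀ a, KapGe F n a → KapGe L (d + n) (s + a)) ∧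
      (s = d → (∀ h, NuLe L (d + n) (d + h) ↔ NuLe F n h) ∧
        (∀ a, KapGe L (d + n) (d + a) ↔ KapGe F n a) ∧
        (Abundant L (d + n) ↔ Abundant F n)) := by
  obtain ⟨η, hη, hη0, hreg⟩ := heff
  have hmain := fun (s : ℕ) (q : Fin s → (i : Fin k) × Fin (m i + 1))
      (hq : AlgebraicIndependent ℂ fun a => x (q a).1 (q a).2) =>
    Pool.Agent.Run7.h562.ND.main hsup hE hn hK x hx0 hgen hN M hM hη hη0 hreg q hq
  obtain ⟨h1, h2, -, h4, -, h6⟩ := hmain 0 Fin.elim0
    ((algebraicIndependent_empty_type_iff).2 (algebraMap ℂ E).injective)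
  refine ⟨h1, h2, h4, h6, fun s q hq => ?_⟩
  obtain ⟨-, -, h3, -, h5, -⟩ := hmain s q hq
  refine ⟨h3, h5, ?_⟩
  rintro rfl
  refine ⟨fun h => ⟨h3 h, h4 h⟩, fun a => ⟨h6 a, h5 a⟩, ?_, ?_⟩
  · rintro ⟨h, ha, hb⟩
    have e1 : KapGe F n 0 := h2.1 (Pool.Agent.Run7.h562.ND.kod_mono (Nat.zero_le _) ha)
    have e2 := Pool.Agent.Run7.h562.ND.kod_le_num (h5 0 e1) hb
    rw [add_zero] at e2
    obtain ⟨a, rfl⟩ := Nat.exists_eq_add_of_le e2
    exact ⟨a, h6 a ha, h3 a hb⟩
  · rintro ⟨h, ha, hb⟩
    exact ⟨s + h, h5 h ha, h4 h hb⟩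

end Pool.Agent.Results.MP_fa3f7f_ag.ImagesOfProductsExact
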