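import Pool.Agent.Run7.h562.MM.Main3

/-!
# The canonical dimension of varieties dominated by a product with a factor of arbitrary dimension

Let `V = X × Y`, `X = X 0 × ... × X (k - 1)`, where the `X i` are smooth projective varieties over `ℂ`
of dimension `m i`, and `Y` is an arbitrary smooth projective variety of dimension `n` (of any Kodaira
dimension). Let `V ⇢ W` be a dominant rational map of finite degree to a variety `W`. It need not be
related to the product structure, and it need not be the quotient by a group. Let `W_i` be the image
of `V` in `W × X 0 × ... × X (i - 1)`, and let `d i` be the degree over `W_i` of the image of `V` in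
`W_i × X i`; for example `W_0 = W`, and `d 0` is the number of different points of `X 0` below a
general fibre of `V ⇢ W`. Suppose that for all `i` the canonical forms of `X i` separate `2 d i`
general points; for example, `X i` is a smooth hypersurface of degree at least `m i + 1 + 2 d i`
in projective space, or a curve of gonality greater than `2 d i`. There is no condition on `Y`.

Let `W' = W_k` be the image of `V` in `W × X`, and `Y'` the generic fibre of `W' → X`, a variety of
dimension `n` over the function field of `X`, which is dominated by `Y`. If `V ⇢ W'` is birational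
(for example if general points of `V` with the same image in `W` have different coordinates in `X`)
then `Y'` is `Y`, over the function field of `X`.

Let `c(Z)` be the dimension of the image of the canonical map of `Z`, given by `H⁰(K_Z)`; it is defined
if `p_g(Z) ≠ 0`. Then:

* `p_g(W) ≠ 0` if and only if `p_g(Y') ≠ 0`;
* in this case `c(W) = dim X + c(Y')` (an exact formula), so `κ(W) ≥ c(W) ≥ dim X = dim W - dim Y`;
* `κ(W) ≤ dim X + κ(Y')`, so `κ(W) = c(W) = dim X + c(Y')` if `κ(Y') = c(Y')`, for example if `Y'` is
  an abelian variety, a K3 surface or a Calabi-Yau variety;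
* `c(W) ≤ dim X + c(Y)`, with equality if `V ⇢ W'` is birational;
* `W` is of general type if the canonical map of `Y'` is generically finite.

For the minimal model conjecture: if `dim Y ≤ 3` and `p_g(W) ≠ 0`, or more generally if
`c(Y') ≥ dim Y - 3`, then `κ(W) ≥ dim W - 3`. So the general fibres of the Iitaka fibration of `W`
have dimension at most three; they have good minimal models (Mori, Kawamata, Miyaoka), and hence `W`
has a good minimal model (Lai): `W` is birational to a projective variety with terminal
singularities and semiample, so nef, canonical divisor. This last step is not part of the Lean proof.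
In particular the conjecture holds for these `W`, of every dimension `≥ 4`, of every Kodaira dimension
between `dim W - 3` and `dim W`. There is no condition on the irregularity or on the fundamental
group of `W`, and the known cases of the conjecture (dimension three, general type, uniruled) do not
contain them.

Some condition on the points is necessary: a Kummer surface `W = (X × Y) / {± 1}` with elliptic
curves `X` and `Y` (`d = 2`, and one point is separated) has `p_g(W) = 1` and `κ(W) = 0 < dim X`.

Proof. As for a curve `Y` (see `MP_c2a5fc_ag.ProductsAndEllipticCurves`) the traces of the products of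
canonical forms on the `X i` and a canonical form `a` on `Y` are canonical forms on `W`. If two
generic points of `W` have the same image under the map given by these forms then the coordinates in
the `X i` are fixed one after the other. This gives the traces of the forms `a` on `Y'`: either all
of them are zero, or the coordinates of `X` and the ratios of these traces are algebraic over the
field of the canonical map of `W`. So it is decisive that these traces generate all canonical forms
of `Y'`, also if `Y` has dimension greater than one. This follows from a Künneth theorem: the canonical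
forms of the generic fibre of `X × Y → X`, so also the pull-backs of the canonical forms of `Y'` and
`W`, are combinations of canonical forms on `Y` with coefficients in the function field `E` of `X`.
For its proof the trace to the product of `Y` and a rational variety with the coordinates `x` of `X`
is used: its coordinate function has no poles along the irreducible polynomials in `x` over the
function field of `Y` which do not divide a constant polynomial, so it is a polynomial in `x`, up to
the denominator; and the coefficients are canonical forms on `Y` by the Gauss extensions of the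
divisorial places of `Y`. Lagrange's interpolation formula for a generator of `E` gives back the form.
-/

set_option autoImplicit false
set_option linter.overlappingInstances false
set_option maxHeartbeats 4000000
set_option synthInstance.maxHeartbeats 400000

open FF Module IntermediateField Pool.Agent Pool.Agent.W602.GT

namespace Pool.Agent.Results.MP_fa3f7f_ag.ProductsWithArbitraryFactor

/-- **The canonical forms separate `r` general points.** `E` is the function field of a variety `X` of
dimension `m`, and `D` a rational frame of the tangent bundle. The embeddings `σ : E → Ω` are the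
generic points of `X` with coordinates in the field `Ω`. At most `r` different such points impose
independent conditions on the canonical forms `ω` which are regular at all prime divisors: if
`∑ c σ * σ (ω D) = 0` for all `ω` then all the coefficients `c σ` are zero. -/
def SeparatesPoints (E : Type) [Field E] [Algebra ℂ E] (m r : ℕ) : Prop :=
  ∀ D : Fin m → Derivation ℂ E E, LinearIndependent E D →
    ∀ (Ω : Type) [Field Ω] [Algebra ℂ Ω] [IsAlgClosed Ω] (A : Finset (E →ₐ[ℂ] Ω)), A.card ≤ r →
    ∀ c : (E →ₐ[ℂ] Ω) → Ω,
    (∀ ω : (Fin m → Derivation ℂ E E) → E, IsPluri 1 ω →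
      (∀ P : Place ℂ E, Divisorial m P → RegAt P ω) → ∑ σ ∈ A, c σ * σ (ω D) = 0) →
    ∀ σ ∈ A, c σ = 0

variable {K : Type} [Field K] [Algebra ℂ K] {k : ℕ}

/-- The function field of the image `W_i` of `V` in the product of `W` and the first `i` factors.
Here `K` and `L` are the function fields of `V` and `W`, and `F l` is the one of the `l`-th
factor. -/
noncomputable def Img (F : Fin (k + 1) → IntermediateField ℂ K) (L : Type) [Field L] [Algebra L K]
    (i : ℕ) : IntermediateField L K :=
  IntermediateField.adjoin L {z | ∃ l : Fin (k + 1), l.val < i ∧ z ∈ F l}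

/-- The degree over `W_i` of the image of `V` in the product of `W_i` and the `i`-th factor. -/
noncomputable def deg (F : Fin (k + 1) → IntermediateField ℂ K) (L : Type) [Field L] [Algebra L K]
    (i : Fin (k + 1)) : ℕ :=
  finrank (Img F L i) (IntermediateField.adjoin (Img F L i) (F i : Set K))

/-- The function field of the product `X` of the first `k` factors. -/
noncomputable def Base (F : Fin (k + 1) → IntermediateField ℂ K) : IntermediateField ℂ K :=
  ⨆ i : Fin k, F i.castSucc

/-- The image of the canonical map of the varieties with function field `L`, of dimension `N`, has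
dimension at least `d` (in particular `p_g ≠ 0`; for `d = 0` this is the whole condition): there are
canonical forms, regular at all prime divisors, whose ratios contain `d` algebraically independent
functions. -/
def CanonicalDimGe (L : Type) [Field L] [Algebra ℂ L] (N d : ℕ) : Prop :=
  ∃ ω : Fin (d + 1) → (Fin N → Derivation ℂ L L) → L,
    (∀ j, IsPluri 1 (ω j) ∧ ∀ P : Place ℂ L, Divisorial N P → RegAt P (ω j)) ∧
    ∃ D, ω 0 D ≠ 0 ∧ AlgebraicIndependent ℂ (fun i : Fin d => ω i.succ D / ω 0 D)

/-- The image of the `w`-canonical map of the generic fibre `Y'` of `W' → X` has dimension at least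
`s` (for `s = 0`: the `w`-th plurigenus is not zero). The `w`-canonical forms of `Y'` are the ones of
`W'` which are regular at all prime divisors over `W'` which dominate `X`, i.e. at the divisorial
places `P` which are trivial on the function field of `X`; they have ratios which contain `s`
functions which are algebraically independent over the function field of `X`. -/
def FibreDimGe (w : ℕ) (F : Fin (k + 1) → IntermediateField ℂ K) (L : Type) [Field L]
    [Algebra ℂ L] [Algebra L K] [IsScalarTower ℂ L K] (N s : ℕ) : Prop :=
  ∃ ω : Fin (s + 1) → (Fin N → Derivation ℂ (Img F L k) (Img F L k)) → Img F L k,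
    (∀ j, IsPluri w (ω j) ∧ ∀ P : Place ℂ (Img F L k), Divisorial N P →
      (∀ f : Img F L k, (f : K) ∈ Base F → P.ord f = 0) → RegAt P (ω j)) ∧
    ∃ D, ω 0 D ≠ 0 ∧
      AlgebraicIndependent (Base F) (fun i : Fin s => ((ω i.succ D / ω 0 D : Img F L k) : K))

theorem deg_eq (F : Fin (k + 1) → IntermediateField ℂ K) (L : Type) [Field L] [Algebra ℂ L]
    [Algebra L K] [IsScalarTower ℂ L K] [FiniteDimensional L K] (i : Fin (k + 1)) :
    deg F L i = finrank (N145.PC.MF F L (N145.PC.Js (k + 1) i))
      (IntermediateField.adjoin (N145.PC.MF F L (N145.PC.Js (k + 1) i)) (F i : Set K)) := by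
  unfold deg Img
  rw [N145.SX.mf_eq]

theorem img_eq (F : Fin (k + 1) → IntermediateField ℂ K) (L : Type) [Field L] [Algebra ℂ L]
    [Algebra L K] [IsScalarTower ℂ L K] [FiniteDimensional L K] :
    N145.PC.MF F L (Finset.univ.erase (Fin.last k)) = Img F L k := by
  unfold Img
  rw [← N145.SX.erase_last, N145.SX.mf_eq]

/-- **The canonical dimension of the varieties dominated by a product.** Let `K` be the function field
of the product `V` of the varieties with the function fields `F i`, `i < k`, of dimension `m i`, and
of the variety `Y` with the function field `F k`, of dimension `n`, i.e. `K` is the compositum and its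
transcendence degree is `∑ m i + n`. Let `L ⊆ K` be the function field of a variety `W` such that the
extension is finite. Suppose that for all `i < k` the canonical forms of the `i`-th variety separate
`2 d i` general points, where `d i` is the degree over `W_i` of the image of `V` in the product of
`W_i` and this variety. Let `X` be the product of the first `k` varieties and `Y'` the generic fibre
over `X` of the image `W'` of `V` in `W × X`. Then:
* `p_g(W) ≠ 0`, `p_g(Y') ≠ 0` and `c(W) ≥ dim X` are equivalent, and imply `κ(W) ≥ dim X`;
* `c(W) ≥ dim X + s` if and only if `c(Y') ≥ s`;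
* if `κ(W) ≥ dim X + s` then `κ(Y') ≥ s`;
* if `c(W) ≥ dim X + s` then `c(Y) ≥ s`, and conversely if `V → W'` is birational;
* if `c(Y') ≥ dim Y` then `W` is of general type. -/
theorem result [Algebra.EssFiniteType ℂ K] (m : Fin k → ℕ) (n : ℕ)
    (F : Fin (k + 1) → IntermediateField ℂ K) [∀ i, Algebra.EssFiniteType ℂ (F i)]
    (hF : ⨆ i, F i = ⊤) (hm : ∀ i : Fin k, Algebra.trdeg ℂ (F i.castSucc) = m i)
    (hn : Algebra.trdeg ℂ (F (Fin.last k)) = n)
    (hK : Algebra.trdeg ℂ K = (∑ i, m i + n : ℕ)) (L : Type) [Field L] [Algebra ℂ L]
    [Algebra L K] [IsScalarTower ℂ L K] [FiniteDimensional L K]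
    (hX : ∀ i : Fin k, SeparatesPoints (F i.castSucc) (m i) (2 * deg F L i.castSucc)) :
    [CanonicalDimGe L (∑ i, m i + n) 0, FibreDimGe 1 F L (∑ i, m i + n) 0,
      CanonicalDimGe L (∑ i, m i + n) (∑ i, m i)].TFAE ∧
    (CanonicalDimGe L (∑ i, m i + n) 0 →
      KodGe ℂ L (∑ i, m i + n) (fun _ => False) (∑ i, m i)) ∧
    (∀ s : ℕ, CanonicalDimGe L (∑ i, m i + n) (∑ i, m i + s) ↔
      FibreDimGe 1 F L (∑ i, m i + n) s) ∧
    (∀ s : ℕ, KodGe ℂ L (∑ i, m i + n) (fun _ => False) (∑ i, m i + s) →
      ∃ w, 0 < w ∧ FibreDimGe w F L (∑ i, m i + n) s) ∧
    (∀ s : ℕ, CanonicalDimGe L (∑ i, m i + n) (∑ i, m i + s) →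
      CanonicalDimGe (F (Fin.last k)) n s) ∧
    (Img F L k = ⊤ → ∀ s : ℕ, CanonicalDimGe (F (Fin.last k)) n s →
      CanonicalDimGe L (∑ i, m i + n) (∑ i, m i + s)) ∧
    (FibreDimGe 1 F L (∑ i, m i + n) n → GeneralType ℂ L (∑ i, m i + n)) := by
  have hL : Algebra.trdeg ℂ L = (∑ i, m i + n : ℕ) :=
    Pool.Agent.Y184.NT.trdeg_below (K := K) hK
  obtain ⟨e⟩ : Nonempty (Fin (∑ i, m i) ≃ (i : Fin k) × Fin (m i)) := ⟨finSigmaFinEquiv.symm⟩
  choose x D hx hD using fun i : Fin k => Pool.Agent.Y172.exists_crd (hm i)
  obtain ⟨y, -, hy, -⟩ := Pool.Agent.Y172.exists_crd hn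
  have hsep : ∀ i : Fin k, N145.SX.SepX (x i) (fun _ => False) (2 * deg F L i.castSucc + 1) :=
    fun i => N145.SX.sepX_of' (hx i) (hD i) fun Ω _ _ _ A hA c hc =>
      hX i (D i) (N145.SX.dual_indep (hD i)) Ω A hA c hc
  have hd : ∀ i : Fin k, 2 * finrank (N145.PC.MF F L (N145.PC.Js (k + 1) i))
      (IntermediateField.adjoin (N145.PC.MF F L (N145.PC.Js (k + 1) i)) (F i.castSucc : Set K)) <
      2 * deg F L i.castSucc + 1 := fun i => by
    rw [deg_eq]
    exact Nat.lt_succ_self _
  have hE := Run7.h562.MM.trdeg_base hF hK hx hy e
  have h1 : ∀ s, FibreDimGe 1 F L (∑ i, m i + n) s →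
      CanonicalDimGe L (∑ i, m i + n) (∑ i, m i + s) := fun s hs =>
    Run7.h562.MM.from_fibre (L := L) hF hm hn e hK hx hy hsep hd (by
      rw [img_eq]
      exact hs)
  have h2 : ∀ s, CanonicalDimGe L (∑ i, m i + n) (∑ i, m i + s) →
      FibreDimGe 1 F L (∑ i, m i + n) s := fun s hs => Run7.h562.MM.to_fibre hK hE hs
  have h3 : CanonicalDimGe L (∑ i, m i + n) 0 → FibreDimGe 1 F L (∑ i, m i + n) 0 := fun h =>
    Run7.h562.MM.pg_iff_fib hK h
  have h4 : [CanonicalDimGe L (∑ i, m i + n) 0, FibreDimGe 1 F L (∑ i, m i + n) 0,
      CanonicalDimGe L (∑ i, m i + n) (∑ i, m i)].TFAE := by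
    tfae_have 1 → 2 := h3
    tfae_have 2 → 3 := h1 0
    tfae_have 3 → 1 := fun h => N145.SX.canGe_mono (Nat.zero_le _) h
    tfae_finish
  refine ⟨h4, fun h => N145.SX.kodGe_of_canGe ((h4.out 0 2).1 h), fun s => ⟨h2 s, h1 s⟩,
    fun s hs => Run7.h562.MM.kod_fibre hK hE hs,
    fun s hs => Run7.h562.MM.to_Y (L := L) hF hm hn e hK hx hy hs,
    fun htop s hs => Run7.h562.MM.from_Y (L := L) hF hm hn e hK hx hy hsep hd (by
      rw [img_eq]
      exact htop) hs,
    fun h => (N145.SX.kodGe_iff hL).1 (N145.SX.kodGe_of_canGe (h1 n h))⟩

end Pool.Agent.Results.MP_fa3f7f_ag.ProductsWithArbitraryFactor
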